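import Pool.Agent.H95.INS.Targets2

set_option autoImplicit false

open MeasureTheory ProbabilityTheory
open scoped ENNReal

namespace Pool.Agent.H48.INS

open Pool.Agent.H95.INS Pool.Agent.H99.NS Pool.Agent.H22.LPP

theorem depOn_of {A : Set Site} {F : Env → Prop}
    (h : ∀ ω ω' : Env, (∀ x ∈ A, ω x = ω' x) → F ω → F ω') : DepOn A F := by
  intro ω ω' hA
  exact propext ⟨h ω ω' hA, h ω' ω (fun x hx => (hA x hx).symm)⟩

theorem exc_congr {q : ℝ} {ω ω' : Env} {s t : ℤ} {g : ℤ → ℤ}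
    (h : ∀ r, s < r → r ≤ t → ω (r, g r) = ω' (r, g r)) : Exc q ω s t g = Exc q ω' s t g := by
  unfold Exc
  rw [wt_congr h]

theorem strip_finite (s t c : ℤ) : {x : Site | s < x.1 ∧ x.1 ≤ t ∧ |x.2| ≤ c}.Finite := by
  refine Set.Finite.subset ((Set.finite_Icc s t).prod (Set.finite_Icc (-c) c)) ?_
  rintro x ⟨h1, h2, h3⟩
  rw [abs_le] at h3
  exact ⟨⟨h1.le, h2⟩, h3⟩

theorem pf_DEP : T_DEP := by
  intro D s t c x y
  refine ⟨?_, ?_, ?_, ?_, ?_, ?_, ?_, ?_⟩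
  · refine depOn_of fun ω ω' hA hω g h1 h2 => ?_
    rw [← exc_congr (ω := ω) (fun r h3 h4 => hA (r, g r) ⟨h3, h4, h2 r h3.le h4⟩)]
    exact hω g h1 h2
  · refine depOn_of fun ω ω' hA hω g g' h1 h1' h2 h2' h3 h3' => ?_
    rw [← exc_congr (ω := ω) (fun r h3 h4 => hA (r, g r) ⟨h3, h4, h2 r h3.le h4⟩)] at h3
    rw [← exc_congr (ω := ω) (fun r h3 h4 => hA (r, g' r) ⟨h3, h4, h2' r h3.le h4⟩)] at h3'
    exact hω g g' h1 h1' h2 h2' h3 h3'
  · refine depOn_of fun ω ω' hA hω s t g h0 h1 h2 h3 h4 => ?_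
    rw [← wt_congr (ω := ω) (γ := g) (fun r h5 h6 => hA (r, g r)
      ⟨by show -(4 * D.n) < r; omega, by show r ≤ 4 * D.n; omega, h4 r h5.le h6⟩)]
    exact hω s t g h0 h1 h2 h3 h4
  · refine depOn_of fun ω ω' hA hω s t g h0 h1 h2 h3 h4 => ?_
    rw [← wt_congr (ω := ω) (γ := g) (fun r h5 h6 => hA (r, g r)
      ⟨by show -(4 * D.n) < r; omega, by show r ≤ 4 * D.n; omega, by
        show |g r| ≤ 16 * D.A * D.w + 8 * D.n
        have h7 := (path_lip h3 le_rfl h5.le h6).1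
        have h8 : |g r| ≤ |g s| + |g r - g s| := by
          have := abs_add_le (g s) (g r - g s)
          rwa [add_sub_cancel] at this
        omega⟩)]
    exact hω s t g h0 h1 h2 h3 h4
  · refine depOn_of fun ω ω' hA hω => ?_
    obtain ⟨h, h1, h2⟩ := hω
    refine ⟨h, h1, ?_⟩
    rw [← exc_congr (ω := ω) (fun r h3 h4 => hA (r, h r) ⟨h3, h4, h1.2.1 r h3.le h4⟩)]
    exact h2
  · refine depOn_of fun ω ω' hA hω => ?_
    obtain ⟨g, h1, h2, h3, h4, h5⟩ := hω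
    refine ⟨g, h1, h2, h3, h4, ?_⟩
    rw [← exc_congr (ω := ω) (fun r h3 h5 => hA (r, g r) ⟨h3, h5, h4 r h3.le h5⟩)]
    exact h5
  · exact (strip_finite s t _).subset (fun x hx => ⟨hx.1, hx.2.1, hx.2.2.le⟩)
  · exact (strip_finite s t _).subset (fun x hx => ⟨hx.1, hx.2.1, hx.2.2.le⟩)

end Pool.Agent.H48.INS
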