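import Pool.Agent.H95.INS.Targets2

set_option autoImplicit false

open MeasureTheory ProbabilityTheory
open scoped ENNReal

namespace Pool.Agent.H48.INS

open Pool.Agent.H95.INS Pool.Agent.H99.NS Pool.Agent.H22.LPP

theorem DepOn_not {A : Set Site} {F : Env → Prop} (h : DepOn A F) : DepOn A (fun ω => ¬ F ω) :=
  fun ω ω' hA => congrArg Not (h ω ω' hA)

theorem DepOn_and {A : Set Site} {F G : Env → Prop} (h : DepOn A F) (h' : DepOn A G) :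
    DepOn A (fun ω => F ω ∧ G ω) :=
  fun ω ω' hA => congrArg₂ And (h ω ω' hA) (h' ω ω' hA)

theorem DepOn_splice {A S : Set Site} {out : Env} {F : Env → Prop} (h : DepOn A F) :
    DepOn A (fun ω => F (splice S ω out)) := by
  intro ω ω' hA
  refine h _ _ fun x hx => ?_
  by_cases hS : x ∈ S
  · rw [splice_of_mem _ _ hS, splice_of_mem _ _ hS, hA x hx]
  · rw [splice_of_not_mem _ _ hS, splice_of_not_mem _ _ hS]

theorem Nr_sub (D : Dat) (hD : D.Ok) {s t : ℤ} (hs : -(4 * D.n) ≤ s) (ht : t ≤ 4 * D.n) :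
    Nr D s t ⊆ Bx D := by
  rintro x ⟨h1, h2, h3⟩
  refine ⟨by omega, by omega, lt_trans h3 ?_⟩
  have h4 := hD.A2
  have h5 := hD.w1
  have h6 : D.A / 2 < D.A := by omega
  exact mul_lt_mul_of_pos_right h6 (by omega)

/-- a property of the narrow strip is the same for the spliced environment -/
theorem splice_iff {D : Dat} {out ω : Env} {A : Set Site} {F : Env → Prop} (h : DepOn A F)
    (hA : A ⊆ Bx D) : F (splice (Bx D) ω out) ↔ F ω := by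
  rw [h (splice (Bx D) ω out) ω (fun x hx => splice_of_mem _ _ (hA hx))]

theorem H_nonneg {D : Dat} (hD : D.Ok) : 0 ≤ D.H := by
  have h1 := hD.c1
  have h2 : 0 < sg D.q := by
    unfold sg
    have := hD.q0
    have := hD.q1
    exact div_pos (Real.sqrt_pos.2 hD.q0) (by linarith)
  have h3 := hD.K0
  have h4 := hD.B0
  have h5 : 0 ≤ 3 * D.K * (1 + D.B) := by positivity
  have h6 : 0 ≤ sg D.q * D.B ^ 2 := by positivity
  linarith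

theorem hws_mono {D : Dat} (hD : D.Ok) {ω : Env} {s t : ℤ} (h : HWs D ω s t 1) :
    HWs D ω s t (999 / 1000) := by
  obtain ⟨g, h1, h2⟩ := h
  refine ⟨g, h1, le_trans ?_ h2⟩
  have := mul_nonneg (H_nonneg hD) hD.f0.le
  nlinarith

theorem lo_splice (h_DEP : T_DEP) {D : Dat} (hD : D.Ok) {ω out : Env} (h : LO D ω) :
    LO D (splice (Bx D) ω out) := by
  have h1 := hD.n1
  refine ⟨fun y hy he => ?_, fun y y' hy hy' he he' => ?_, fun y hy he => ?_⟩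
  · exact (splice_iff (h_DEP D _ _ 0 0 y).2.2.2.2.2.1 (Nr_sub D hD (by omega) (by omega))).2
      (h.l1 y hy he)
  · exact (splice_iff (h_DEP D _ _ 0 y y').2.2.2.2.2.1 (Nr_sub D hD (by omega) (by omega))).2
      (h.l2 y y' hy hy' he he')
  · exact (splice_iff (h_DEP D _ _ 0 y 0).2.2.2.2.2.1 (Nr_sub D hD (by omega) (by omega))).2
      (h.l3 y hy he)

/-- the sites used by `Sm` -/
def SA (D : Dat) : Set Site :=
  Wd D (-(4 * D.n)) (-(3 * D.n)) ∪ Wd D (-(2 * D.n)) (2 * D.n) ∪ Wd D (3 * D.n) (4 * D.n)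

/-- the sites used by `LO` -/
def LA (D : Dat) : Set Site :=
  Nr D (-(4 * D.n)) (-(3 * D.n)) ∪ Nr D (-(2 * D.n)) (2 * D.n) ∪ Nr D (3 * D.n) (4 * D.n)

/-- the sites used by the highways -/
def HA (D : Dat) : Set Site := Nr D (-(3 * D.n)) (-(2 * D.n)) ∪ Nr D (2 * D.n) (3 * D.n)

theorem dep_sm (h_DEP : T_DEP) (D : Dat) : DepOn (SA D) (fun ω => Sm D ω) := by
  intro ω ω' hA
  have h1 := (h_DEP D (-(4 * D.n)) (-(3 * D.n)) (1 / 1000) 0 0).1 ω ω'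
    (fun x hx => hA x (Or.inl (Or.inl hx)))
  have h2 := (h_DEP D (-(2 * D.n)) (2 * D.n) (1 / 1000) 0 0).1 ω ω'
    (fun x hx => hA x (Or.inl (Or.inr hx)))
  have h3 := (h_DEP D (3 * D.n) (4 * D.n) (1 / 1000) 0 0).1 ω ω'
    (fun x hx => hA x (Or.inr hx))
  refine propext ⟨fun h => ⟨?_, ?_, ?_⟩, fun h => ⟨?_, ?_, ?_⟩⟩
  · exact h1.mp h.s1
  · exact h2.mp h.s2
  · exact h3.mp h.s3
  · exact h1.mpr h.s1
  · exact h2.mpr h.s2
  · exact h3.mpr h.s3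

theorem dep_lo (h_DEP : T_DEP) (D : Dat) : DepOn (LA D) (fun ω => LO D ω) := by
  have key : ∀ ω ω' : Env, (∀ x ∈ LA D, ω x = ω' x) → LO D ω → LO D ω' := by
    intro ω ω' hA h
    refine ⟨fun y hy he => ?_, fun y y' hy hy' he he' => ?_, fun y hy he => ?_⟩
    · have h1 := (h_DEP D (-(4 * D.n)) (-(3 * D.n)) 0 0 y).2.2.2.2.2.1 ω ω'
        (fun x hx => hA x (Or.inl (Or.inl hx)))
      exact h1.mp (h.l1 y hy he)
    · have h1 := (h_DEP D (-(2 * D.n)) (2 * D.n) 0 y y').2.2.2.2.2.1 ω ω'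
        (fun x hx => hA x (Or.inl (Or.inr hx)))
      exact h1.mp (h.l2 y y' hy hy' he he')
    · have h1 := (h_DEP D (3 * D.n) (4 * D.n) 0 y 0).2.2.2.2.2.1 ω ω'
        (fun x hx => hA x (Or.inr hx))
      exact h1.mp (h.l3 y hy he)
  intro ω ω' hA
  exact propext ⟨key ω ω' hA, key ω' ω (fun x hx => (hA x hx).symm)⟩

theorem dep_hw2 (h_DEP : T_DEP) (D : Dat) : DepOn (HA D)
    (fun ω => HWs D ω (-(3 * D.n)) (-(2 * D.n)) 1 ∧ HWs D ω (2 * D.n) (3 * D.n) 1) := by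
  refine DepOn_and ?_ ?_
  · exact (h_DEP D _ _ 1 0 0).2.2.2.2.1.mono (fun x hx => Or.inl hx)
  · exact (h_DEP D _ _ 1 0 0).2.2.2.2.1.mono (fun x hx => Or.inr hx)

theorem fin_SA (h_DEP : T_DEP) (D : Dat) : (SA D).Finite :=
  ((h_DEP D _ _ 0 0 0).2.2.2.2.2.2.1.union (h_DEP D _ _ 0 0 0).2.2.2.2.2.2.1).union
    (h_DEP D _ _ 0 0 0).2.2.2.2.2.2.1

theorem fin_LA (h_DEP : T_DEP) (D : Dat) : (LA D).Finite :=
  ((h_DEP D _ _ 0 0 0).2.2.2.2.2.2.2.union (h_DEP D _ _ 0 0 0).2.2.2.2.2.2.2).union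
    (h_DEP D _ _ 0 0 0).2.2.2.2.2.2.2

theorem fin_HA (h_DEP : T_DEP) (D : Dat) : (HA D).Finite :=
  (h_DEP D _ _ 0 0 0).2.2.2.2.2.2.2.union (h_DEP D _ _ 0 0 0).2.2.2.2.2.2.2

/-- product rule in the form used here -/
theorem inter_mul (h_FIM : T_FIM) (q : ℝ) {A B : Set Site} (hA : A.Finite) (hB : B.Finite)
    (hAB : Disjoint A B) {E F : Env → Prop} (hE : DepOn A E) (hF : DepOn B F) :
    PE q {ω | E ω ∧ F ω} = PE q {ω | E ω} * PE q {ω | F ω} :=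
  measure_inter_of_depOn q hAB (h_FIM A E hA hE) (h_FIM B F hB hF) hE hF

theorem pf_IN1 (h_FIM : T_FIM) (h_DEP : T_DEP) (_h_DER : T_DER) (h_PH2 : T_PH2) : T_IN1 := by
  intro D out o e hD hEnd hFC hRF hLO
  have hn := hD.n1
  set P := pH D with hP
  have hF1 : PE D.q {ω | HWs D ω (-(3 * D.n)) (-(2 * D.n)) 1} = P := rfl
  have hF2 : PE D.q {ω | HWs D ω (2 * D.n) (3 * D.n) 1} = P := h_PH2 D hD.ne
  have dH1 := (h_DEP D (-(3 * D.n)) (-(2 * D.n)) 1 0 0).2.2.2.2.1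
  have dH2 := (h_DEP D (2 * D.n) (3 * D.n) 1 0 0).2.2.2.2.1
  have fN1 := (h_DEP D (-(3 * D.n)) (-(2 * D.n)) 1 0 0).2.2.2.2.2.2.2
  have fN2 := (h_DEP D (2 * D.n) (3 * D.n) 1 0 0).2.2.2.2.2.2.2
  have fW1 := (h_DEP D (-(3 * D.n)) (-(2 * D.n)) 1 0 0).2.2.2.2.2.2.1
  have fW2 := (h_DEP D (2 * D.n) (3 * D.n) 1 0 0).2.2.2.2.2.2.1
  have hFF : PE D.q {ω | HWs D ω (-(3 * D.n)) (-(2 * D.n)) 1 ∧ HWs D ω (2 * D.n) (3 * D.n) 1}
      = P ^ 2 := by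
    rw [inter_mul h_FIM D.q fN1 fN2 ?_ dH1 dH2, hF1, hF2, sq]
    rw [Set.disjoint_left]
    rintro x ⟨h1, h2, -⟩ ⟨h3, h4, -⟩
    omega
  -- the bad events
  have bu1 : PE D.q {ω | HWs D ω (2 * D.n) (3 * D.n) 1 ∧
      ¬ UB D (splice (Bx D) ω out) (-(3 * D.n)) (-(2 * D.n)) (1001 / 1000)} ≤ P ^ 2 / 100 := by
    rw [inter_mul h_FIM D.q fN2 fW1 ?_ dH2 (DepOn_splice (F := fun ω =>
      ¬ UB D ω (-(3 * D.n)) (-(2 * D.n)) (1001 / 1000)) (DepOn_not (h_DEP D _ _ _ 0 0).1)), hF2]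
    · calc P * _ ≤ P * (P / 100) := mul_le_mul_right hFC.u1 P
        _ = P ^ 2 / 100 := by rw [sq, mul_div_assoc]
    · rw [Set.disjoint_left]
      rintro x ⟨h1, h2, -⟩ ⟨h3, h4, -⟩
      omega
  have bu2 : PE D.q {ω | HWs D ω (-(3 * D.n)) (-(2 * D.n)) 1 ∧
      ¬ UB D (splice (Bx D) ω out) (2 * D.n) (3 * D.n) (1001 / 1000)} ≤ P ^ 2 / 100 := by
    rw [inter_mul h_FIM D.q fN1 fW2 ?_ dH1 (DepOn_splice (F := fun ω =>
      ¬ UB D ω (2 * D.n) (3 * D.n) (1001 / 1000)) (DepOn_not (h_DEP D _ _ _ 0 0).1)), hF1]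
    · calc P * _ ≤ P * (P / 100) := mul_le_mul_right hFC.u2 P
        _ = P ^ 2 / 100 := by rw [sq, mul_div_assoc]
    · rw [Set.disjoint_left]
      rintro x ⟨h1, h2, -⟩ ⟨h3, h4, -⟩
      omega
  have bd1 : PE D.q {ω | HWs D ω (2 * D.n) (3 * D.n) 1 ∧
      ¬ ND D (splice (Bx D) ω out) (-(3 * D.n)) (-(2 * D.n)) (974 / 1000)} ≤ P ^ 2 / 100 := by
    rw [inter_mul h_FIM D.q fN2 fW1 ?_ dH2 (DepOn_splice (F := fun ω =>
      ¬ ND D ω (-(3 * D.n)) (-(2 * D.n)) (974 / 1000)) (DepOn_not (h_DEP D _ _ _ 0 0).2.1)), hF2]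
    · calc P * _ ≤ P * (P / 100) := mul_le_mul_right hFC.d1 P
        _ = P ^ 2 / 100 := by rw [sq, mul_div_assoc]
    · rw [Set.disjoint_left]
      rintro x ⟨h1, h2, -⟩ ⟨h3, h4, -⟩
      omega
  have bd2 : PE D.q {ω | HWs D ω (-(3 * D.n)) (-(2 * D.n)) 1 ∧
      ¬ ND D (splice (Bx D) ω out) (2 * D.n) (3 * D.n) (974 / 1000)} ≤ P ^ 2 / 100 := by
    rw [inter_mul h_FIM D.q fN1 fW2 ?_ dH1 (DepOn_splice (F := fun ω =>
      ¬ ND D ω (2 * D.n) (3 * D.n) (974 / 1000)) (DepOn_not (h_DEP D _ _ _ 0 0).2.1)), hF1]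
    · calc P * _ ≤ P * (P / 100) := mul_le_mul_right hFC.d2 P
        _ = P ^ 2 / 100 := by rw [sq, mul_div_assoc]
    · rw [Set.disjoint_left]
      rintro x ⟨h1, h2, -⟩ ⟨h3, h4, -⟩
      omega
  have bsm : PE D.q {ω | (HWs D ω (-(3 * D.n)) (-(2 * D.n)) 1 ∧ HWs D ω (2 * D.n) (3 * D.n) 1) ∧
      ¬ Sm D (splice (Bx D) ω out)} ≤ P ^ 2 / 100 := by
    rw [inter_mul h_FIM D.q (fin_HA h_DEP D) (fin_SA h_DEP D) ?_ (dep_hw2 h_DEP D)
      (DepOn_splice (F := fun ω => ¬ Sm D ω) (DepOn_not (dep_sm h_DEP D))), hFF]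
    · calc P ^ 2 * _ ≤ P ^ 2 * (1 / 100) := mul_le_mul_right hFC.sm _
        _ = P ^ 2 / 100 := by rw [← mul_div_assoc, mul_one]
    · rw [Set.disjoint_left]
      rintro x (⟨h1, h2, -⟩ | ⟨h1, h2, -⟩) ((⟨h3, h4, -⟩ | ⟨h3, h4, -⟩) | ⟨h3, h4, -⟩) <;> omega
  have blo : PE D.q {ω | (HWs D ω (-(3 * D.n)) (-(2 * D.n)) 1 ∧ HWs D ω (2 * D.n) (3 * D.n) 1) ∧
      ¬ LO D ω} ≤ P ^ 2 / 100 := by
    rw [inter_mul h_FIM D.q (fin_HA h_DEP D) (fin_LA h_DEP D) ?_ (dep_hw2 h_DEP D)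
      (DepOn_not (dep_lo h_DEP D)), hFF]
    · calc P ^ 2 * _ ≤ P ^ 2 * (1 / 100) := mul_le_mul_right hLO _
        _ = P ^ 2 / 100 := by rw [← mul_div_assoc, mul_one]
    · rw [Set.disjoint_left]
      rintro x (⟨h1, h2, -⟩ | ⟨h1, h2, -⟩) ((⟨h3, h4, -⟩ | ⟨h3, h4, -⟩) | ⟨h3, h4, -⟩) <;> omega
  have bcu : PE D.q {ω | ¬ CU D (splice (Bx D) ω out)} ≤ P ^ 2 / 100 := hFC.cu
  have brr : PE D.q {ω | ¬ RR D (splice (Bx D) ω out) o e} ≤ P ^ 2 / 100 := hRF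
  -- union bound
  have hsub : {ω | HWs D ω (-(3 * D.n)) (-(2 * D.n)) 1 ∧ HWs D ω (2 * D.n) (3 * D.n) 1} ⊆
      {ω | Ev D (splice (Bx D) ω out) ∧ RR D (splice (Bx D) ω out) o e} ∪
      ({ω | HWs D ω (2 * D.n) (3 * D.n) 1 ∧
        ¬ UB D (splice (Bx D) ω out) (-(3 * D.n)) (-(2 * D.n)) (1001 / 1000)} ∪
      ({ω | HWs D ω (-(3 * D.n)) (-(2 * D.n)) 1 ∧
        ¬ UB D (splice (Bx D) ω out) (2 * D.n) (3 * D.n) (1001 / 1000)} ∪
      ({ω | HWs D ω (2 * D.n) (3 * D.n) 1 ∧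
        ¬ ND D (splice (Bx D) ω out) (-(3 * D.n)) (-(2 * D.n)) (974 / 1000)} ∪
      ({ω | HWs D ω (-(3 * D.n)) (-(2 * D.n)) 1 ∧
        ¬ ND D (splice (Bx D) ω out) (2 * D.n) (3 * D.n) (974 / 1000)} ∪
      ({ω | (HWs D ω (-(3 * D.n)) (-(2 * D.n)) 1 ∧ HWs D ω (2 * D.n) (3 * D.n) 1) ∧
        ¬ Sm D (splice (Bx D) ω out)} ∪
      ({ω | (HWs D ω (-(3 * D.n)) (-(2 * D.n)) 1 ∧ HWs D ω (2 * D.n) (3 * D.n) 1) ∧
        ¬ LO D ω} ∪
      ({ω | ¬ CU D (splice (Bx D) ω out)} ∪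
       {ω | ¬ RR D (splice (Bx D) ω out) o e}))))))) := by
    rintro ω ⟨a1, a2⟩
    by_contra hcon
    simp only [Set.mem_union, Set.mem_ofPred_eq, not_or, not_and, not_not] at hcon
    obtain ⟨c0, c1, c2, c3, c4, c5, c6, c7, c8⟩ := hcon
    refine c0 ⟨c1 a2, c2 a1, c5 ⟨a1, a2⟩, c3 a2, c4 a1, c7, ?_, ?_, ?_⟩ c8
    · exact (splice_iff (h_DEP D _ _ _ 0 0).2.2.2.2.1 (Nr_sub D hD (by omega) (by omega))).2
        (hws_mono hD a1)
    · exact (splice_iff (h_DEP D _ _ _ 0 0).2.2.2.2.1 (Nr_sub D hD (by omega) (by omega))).2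
        (hws_mono hD a2)
    · exact lo_splice h_DEP hD (c6 ⟨a1, a2⟩)
  have u : ∀ (S T : Set Env) (a b : ℝ≥0∞), PE D.q S ≤ a → PE D.q T ≤ b →
      PE D.q (S ∪ T) ≤ a + b :=
    fun S T a b h1 h2 => (measure_union_le S T).trans (add_le_add h1 h2)
  have htot : P ^ 2 ≤ Pin D out (fun ω => Ev D ω ∧ RR D ω o e) + 8 * (P ^ 2 / 100) := by
    have hm := measure_mono (μ := PE D.q) hsub
    rw [hFF] at hm
    refine (hm.trans (u _ _ _ _ le_rfl (u _ _ _ _ bu1 (u _ _ _ _ bu2 (u _ _ _ _ bd1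
      (u _ _ _ _ bd2 (u _ _ _ _ bsm (u _ _ _ _ blo (u _ _ _ _ bcu brr))))))))).trans
      (le_of_eq ?_)
    unfold Pin
    ring
  have hP1 : P ≤ 1 := by
    rw [hP]
    exact prob_le_one
  have hPf : P ≠ ⊤ := ne_top_of_le_ne_top ENNReal.one_ne_top hP1
  have hGf : Pin D out (fun ω => Ev D ω ∧ RR D ω o e) ≠ ⊤ := measure_ne_top _ _
  set G := Pin D out (fun ω => Ev D ω ∧ RR D ω o e) with hG
  have hreal : P.toReal ^ 2 ≤ G.toReal + 8 * (P.toReal ^ 2 / 100) := by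
    have h1 := ENNReal.toReal_mono (by
      refine ENNReal.add_ne_top.2 ⟨hGf, ENNReal.mul_ne_top (by norm_num) ?_⟩
      exact (ENNReal.div_lt_top (ENNReal.pow_ne_top hPf) (by norm_num)).ne) htot
    rw [ENNReal.toReal_add hGf (ENNReal.mul_ne_top (by norm_num)
      (ENNReal.div_lt_top (ENNReal.pow_ne_top hPf) (by norm_num)).ne), ENNReal.toReal_mul,
      ENNReal.toReal_div, ENNReal.toReal_pow] at h1
    simpa using h1
  have hfin : (P ^ 2 / 2).toReal ≤ G.toReal := by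
    rw [ENNReal.toReal_div, ENNReal.toReal_pow]
    have : (2 : ℝ≥0∞).toReal = 2 := by norm_num
    rw [this]
    nlinarith [sq_nonneg P.toReal]
  exact (ENNReal.toReal_le_toReal (ENNReal.div_lt_top (ENNReal.pow_ne_top hPf)
    (by norm_num)).ne hGf).1 hfin

end Pool.Agent.H48.INS
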